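import Mathlib
import Pool.Agent.Lib.MP_0a9180_co.Defs
import Pool.Agent.Lib.MP_0a9180_co.Main

/-!
For every `d ≥ 7`, every infinite family of `n` biangular lines in `ℝ^d` has `n ≤ g (d - 1)`, where
`g m` is the largest size of a spherical two-distance set in `ℝ^m`.
-/

set_option autoImplicit false

open Pool.Agent.MP_0a9180_co in
theorem Pool.Agent.Results.MP_0a9180_co.NoLargeFamily.result
    (d : ℕ) (hd : 7 ≤ d) (n : ℕ) (I : Set ℝ) (x : ℝ → Fin n → EuclideanSpace ℝ (Fin d))
    (h : IsInfiniteFamily I x) : n ≤ g (d - 1) :=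
  family_bound hd I x h
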